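import Pool.Agent.Lib.MP_dc7d7b_co.Asym

set_option autoImplicit false

/-!
# The correspondence packing number is at most `(1 + o(1)) Δ`

For every `ε > 0` there is `D₀` such that for all `D ≥ D₀`, all finite graphs `G` of maximum degree at most `D` and
all `k ≥ (1 + ε) D`, every `k`-fold correspondence cover of `G` has a packing.
-/

namespace Pool.Agent.Results.MP_dc7d7b_co.AsymptoticDelta

open Finset Pool.Agent.MP_dc7d7b

/-- For every `ε > 0` there is `D₀` such that for all `D ≥ D₀`, all finite graphs `G` of maximum degree at most `D`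
and all `k ≥ (1 + ε) D`, every `k`-fold correspondence cover `H` of `G` (matchings between the fibres
`{v} × Fin k` of adjacent vertices) has a packing: `k` pairwise disjoint independent transversals `f 0, …, f (k-1)`
covering everything. -/
theorem result (ε : ℝ) (hε : 0 < ε) : ∃ D₀ : ℕ, ∀ D : ℕ, D₀ ≤ D →
    ∀ (V : Type) [Fintype V] (G : SimpleGraph V) [DecidableRel G.Adj], (∀ v, G.degree v ≤ D) →
    ∀ k : ℕ, (1 + ε) * D ≤ k → ∀ H : SimpleGraph (V × Fin k),
      (∀ (v : V) (i j : Fin k), ¬ H.Adj (v, i) (v, j)) →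
      (∀ (u v : V) (i j : Fin k), H.Adj (u, i) (v, j) → G.Adj u v) →
      (∀ (u v : V) (i j j' : Fin k), H.Adj (u, i) (v, j) → H.Adj (u, i) (v, j') → j = j') →
      ∃ f : Fin k → V → Fin k,
        (∀ v : V, Function.Injective (fun i : Fin k => f i v)) ∧
        ∀ (i : Fin k) (u v : V), ¬ H.Adj (u, f i u) (v, f i v) := by
  classical
  obtain ⟨D₀, h⟩ := asym ε hε
  refine ⟨D₀, ?_⟩
  intro D hD V _ G _ hdeg k hk H hfib hedge hmat
  obtain ⟨f, hf⟩ := h D hD V G (by
    intro v
    have h1 := hdeg v
    rw [← SimpleGraph.card_neighborFinset_eq_degree] at h1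
    refine le_trans (Finset.card_le_card ?_) h1
    intro w hw
    rw [SimpleGraph.mem_neighborFinset]
    exact (Finset.mem_filter.mp hw).2) k hk H ⟨hfib, hedge, hmat⟩
  exact ⟨fun i v => f v i, fun v => (f v).injective, fun i u v => hf i u v⟩

end Pool.Agent.Results.MP_dc7d7b_co.AsymptoticDelta
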