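import Pool.Agent.Lib.MP_dc7d7b_co.TD.All

set_option autoImplicit false

/-!
# Correspondence packing number at most `2 D - 4`
-/

namespace Pool.Agent.Results.MP_dc7d7b_co.DegreeSix

open Finset Pool.Agent.MP_dc7d7b

/-- For every `D ≥ 5`, every `(2 D - 4)`-fold correspondence cover of a finite graph with all degrees at most `D` and
without a complete subgraph on `D + 1` vertices has a packing. For `D = 5, 6` this is the conjectured bound. -/
theorem result (V : Type) [Fintype V] (G : SimpleGraph V) [DecidableRel G.Adj]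
    (D : ℕ) (hD : 5 ≤ D)
    (hdeg : ∀ v : V, G.degree v ≤ D)
    (hK : G.CliqueFree (D + 1))
    (H : SimpleGraph (V × Fin (2 * D - 4)))
    (hfib : ∀ (v : V) (i j : Fin (2 * D - 4)), ¬ H.Adj (v, i) (v, j))
    (hedge : ∀ (u v : V) (i j : Fin (2 * D - 4)), H.Adj (u, i) (v, j) → G.Adj u v)
    (hmat : ∀ (u v : V) (i j j' : Fin (2 * D - 4)), H.Adj (u, i) (v, j) → H.Adj (u, i) (v, j') → j = j') :
    ∃ f : Fin (2 * D - 4) → V → Fin (2 * D - 4),
      (∀ v : V, Function.Injective (fun i : Fin (2 * D - 4) => f i v)) ∧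
      ∀ (i : Fin (2 * D - 4)) (u v : V), ¬ H.Adj (u, f i u) (v, f i v) :=
  TD.all_degrees V G D hD hdeg hK (2 * D - 4) rfl H ⟨hfib, hedge, hmat⟩

end Pool.Agent.Results.MP_dc7d7b_co.DegreeSix
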