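import Pool.Agent.Lib.MP_dc7d7b_co.LS.Final

set_option autoImplicit false

/-!
# Locally sparse graphs have correspondence packing number at most `(1 - c) Δ`

For every `η > 0` there are `c > 0` and `D₀` such that for all `D ≥ D₀`, all finite graphs `G` of maximum degree at
most `D` in which every neighbourhood contains at most `(1 - η) D²` ordered adjacent pairs, and all `k ≥ (1 - c) D`,
every `k`-fold correspondence cover of `G` has a packing.
-/

namespace Pool.Agent.Results.MP_dc7d7b_co.LocallySparse

open Finset Pool.Agent.MP_dc7d7b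

/-- For every `η > 0` there are `c > 0` and `D₀` such that for all `D ≥ D₀`, all finite graphs `G` with all degrees
at most `D` such that for every vertex `w` the number of ordered pairs `(u, u')` of adjacent vertices of `N(w)` is at
most `(1 - η) D²` (the neighbourhood of `w` spans at most `(1 - η) D² / 2` edges), and all `k ≥ (1 - c) D`, every
`k`-fold correspondence cover `H` of `G` (matchings between the fibres `{v} × Fin k` of adjacent vertices) has a
packing: `k` pairwise disjoint independent transversals `f 0, …, f (k-1)` covering everything. -/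
theorem result (η : ℝ) (hη : 0 < η) : ∃ c : ℝ, 0 < c ∧ ∃ D₀ : ℕ, ∀ D : ℕ, D₀ ≤ D →
    ∀ (V : Type) [Fintype V] (G : SimpleGraph V) [DecidableRel G.Adj], (∀ v, G.degree v ≤ D) →
    (∀ w, ((univ.filter (fun p : V × V => G.Adj w p.1 ∧ G.Adj w p.2 ∧ G.Adj p.1 p.2)).card : ℝ) ≤
      (1 - η) * (D : ℝ) ^ 2) →
    ∀ k : ℕ, (1 - c) * D ≤ k → ∀ H : SimpleGraph (V × Fin k),
      (∀ (v : V) (i j : Fin k), ¬ H.Adj (v, i) (v, j)) →
      (∀ (u v : V) (i j : Fin k), H.Adj (u, i) (v, j) → G.Adj u v) →
      (∀ (u v : V) (i j j' : Fin k), H.Adj (u, i) (v, j) → H.Adj (u, i) (v, j') → j = j') →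
      ∃ f : Fin k → V → Fin k,
        (∀ v : V, Function.Injective (fun i : Fin k => f i v)) ∧
        ∀ (i : Fin k) (u v : V), ¬ H.Adj (u, f i u) (v, f i v) := by
  classical
  obtain ⟨c, hc, D₀, h⟩ := LS.sparse_main η hη
  refine ⟨c, hc, D₀, ?_⟩
  intro D hD V _ G _ hdeg hsp k hk H hfib hedge hmat
  obtain ⟨f, hf⟩ := h D hD V G (by
    intro v
    have h1 := hdeg v
    rw [← SimpleGraph.card_neighborFinset_eq_degree] at h1
    refine le_trans (Finset.card_le_card ?_) h1
    intro w hw
    rw [SimpleGraph.mem_neighborFinset]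
    exact (Finset.mem_filter.mp hw).2) hsp k hk H ⟨hfib, hedge, hmat⟩
  exact ⟨fun i v => f v i, fun v => (f v).injective, fun i u v => hf i u v⟩

end Pool.Agent.Results.MP_dc7d7b_co.LocallySparse
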