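import Pool.Agent.Lib.MP_dc7d7b_co.Main

set_option autoImplicit false

/-!
# Correspondence packing number of graphs of small maximum average degree

If `d ≥ 3` and `mad G < 2 (d+1) (d+2) / (2 d + 3)`, then every `2d`-fold correspondence cover of `G` has a packing.
In particular this holds if every vertex of `G` has degree at most `d + 1`.
-/

namespace Pool.Agent.Results.MP_dc7d7b_co.SparseTwoD

open Finset Pool.Agent.MP_dc7d7b

/-- If `d ≥ 3` and the average degree of every nonempty subgraph `G[S]` is less than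
`2 (d+1) (d+2) / (2 d + 3)`, then every `2d`-fold correspondence cover of `G` has a packing. -/
theorem result (d : ℕ) (hd : 3 ≤ d) (V : Type) [Fintype V] (G : SimpleGraph V) [DecidableRel G.Adj]
    (hG : ∀ S : Finset V, S.Nonempty →
      (2 * d + 3) * ∑ v ∈ S, (S.filter (fun w => G.Adj v w)).card < 2 * (d + 1) * (d + 2) * S.card)
    (H : SimpleGraph (V × Fin (2 * d)))
    (hfib : ∀ (v : V) (i j : Fin (2 * d)), ¬ H.Adj (v, i) (v, j))
    (hedge : ∀ (u v : V) (i j : Fin (2 * d)), H.Adj (u, i) (v, j) → G.Adj u v)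
    (hmat : ∀ (u v : V) (i j j' : Fin (2 * d)), H.Adj (u, i) (v, j) → H.Adj (u, i) (v, j') → j = j') :
    ∃ f : Fin (2 * d) → V → Fin (2 * d),
      (∀ v : V, Function.Injective (fun i : Fin (2 * d) => f i v)) ∧
      ∀ (i : Fin (2 * d)) (u v : V), ¬ H.Adj (u, f i u) (v, f i v) := by
  classical
  obtain ⟨f, hf⟩ := pack_aux hd (G := G) (H := H) ⟨hfib, hedge, hmat⟩ (by
    intro S hS
    have := local_of_sum G S (hG S hS)
    have key : ∀ v, ∀ m : ℕ, (S.filter (fun w => G.Adj v w)).card ≤ m →
        (@Finset.filter V (fun w => G.Adj v w) (fun _ => Classical.propDecidable _) S).card ≤ m := by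
      intro v m h
      refine le_trans (Finset.card_le_card ?_) h
      intro w hw
      simp only [Finset.mem_filter] at hw
      exact Finset.mem_filter.mpr hw
    rcases this with ⟨v, hv, h⟩ | ⟨u, hu, v, hv, huv, h1, h2⟩
    · exact Or.inl ⟨v, hv, key v _ h⟩
    · exact Or.inr ⟨u, hu, v, hv, huv, key u _ h1, key v _ h2⟩) univ
  exact ⟨fun i v => f v i, fun v => (f v).injective, fun i u v => hf i u (mem_univ _) v (mem_univ _)⟩

end Pool.Agent.Results.MP_dc7d7b_co.SparseTwoD
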